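import Mathlib
import Pool.Agent.Helper639.AL

set_option autoImplicit false
set_option linter.unusedVariables false
set_option linter.unusedSectionVars false

open Set Topology

namespace Pool.Agent.Y447.CC

theorem mem_closure_pi_real {ι : Type*} {S : Set (ι → ℝ)} {p : ι → ℝ} :
    p ∈ closure S ↔ ∀ (F : Finset ι) (ε : ℝ), 0 < ε → ∃ q ∈ S, ∀ i ∈ F, |q i - p i| < ε := by
  classical
  constructor
  · intro hp F ε hε
    have ho : IsOpen ((F : Set ι).pi (fun i => Metric.ball (p i) ε)) :=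
      isOpen_set_pi F.finite_toSet (fun i _ => Metric.isOpen_ball)
    have hpo : p ∈ ((F : Set ι).pi (fun i => Metric.ball (p i) ε)) :=
      fun i _ => Metric.mem_ball_self hε
    obtain ⟨q, hq1, hq2⟩ := mem_closure_iff.mp hp _ ho hpo
    refine ⟨q, hq2, fun i hi => ?_⟩
    have := hq1 i hi
    rwa [Metric.mem_ball, Real.dist_eq] at this
  · intro h
    rw [mem_closure_iff]
    intro o ho hpo
    obtain ⟨I, u, hu, huo⟩ := isOpen_pi_iff.mp ho p hpo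
    have h1 : ∀ᶠ ε in 𝓝[>] (0 : ℝ), ∀ i ∈ I, Metric.ball (p i) ε ⊆ u i := by
      rw [Filter.eventually_all_finset]
      intro i hi
      obtain ⟨δ, hδ, hδu⟩ := Metric.isOpen_iff.mp (hu i hi).1 (p i) (hu i hi).2
      filter_upwards [Ioo_mem_nhdsGT hδ] with ε hε
      exact (Metric.ball_subset_ball hε.2.le).trans hδu
    have h2 : ∀ᶠ ε in 𝓝[>] (0 : ℝ), 0 < ε := eventually_mem_nhdsWithin
    obtain ⟨ε, hε1, hε2⟩ := (h1.and h2).exists
    obtain ⟨q, hqS, hq⟩ := h I ε hε2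
    refine ⟨q, huo fun i hi => hε1 i hi ?_, hqS⟩
    rw [Metric.mem_ball, Real.dist_eq]
    exact hq i hi

theorem eq_of_cluster {a b : ℝ} {u : ℕ → ℝ} {i : ℕ}
    (h1 : ∀ k ≥ i, |u k - a| ≤ 1 / ((k : ℝ) + 1))
    (h2 : ∀ n, ∀ ε : ℝ, 0 < ε → ∃ k ≥ n, |u k - b| < ε) : a = b := by
  by_contra hab
  have hpos : 0 < |a - b| := abs_pos.mpr (sub_ne_zero.mpr hab)
  obtain ⟨n, hn⟩ := exists_nat_one_div_lt (half_pos hpos)
  obtain ⟨k, hk, hkb⟩ := h2 (max n i) (|a - b| / 2) (half_pos hpos)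
  have hka := h1 k (le_trans (le_max_right _ _) hk)
  have hkn : (1 : ℝ) / ((k : ℝ) + 1) ≤ 1 / ((n : ℝ) + 1) := by
    apply one_div_le_one_div_of_le (by positivity)
    have : (n : ℝ) ≤ k := by exact_mod_cast le_trans (le_max_left _ _) hk
    linarith
  have : |a - b| ≤ |u k - a| + |u k - b| := by
    have e : a - b = (u k - b) - (u k - a) := by ring
    rw [e]
    calc |(u k - b) - (u k - a)| ≤ |u k - b| + |u k - a| := abs_sub _ _
      _ = |u k - a| + |u k - b| := add_comm _ _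
  linarith

variable {X : Type} [TopologicalSpace X]

/-- evaluation at a point -/
def io (x : X) : C(X, ℝ) → ℝ := fun f => f x

/-- the closure of the canonical image of the space in the product of lines -/
def HH (X : Type) [TopologicalSpace X] : Set (C(X, ℝ) → ℝ) := closure (range (io (X := X)))

theorem lemA {z : C(X, ℝ) → ℝ} (hz : z ∈ HH X) (g : ℕ → C(X, ℝ)) : ∃ x, ∀ k, g k x = z (g k) := by
  classical
  by_contra! hne
  let t : ℕ → X → ℝ := fun k x => (1 / 4 : ℝ) ^ k * min 1 |g k x - z (g k)|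
  have ht0 : ∀ k x, 0 ≤ t k x := fun k x => by positivity
  have ht1 : ∀ k x, t k x ≤ (1 / 2 : ℝ) ^ k := by
    intro k x
    have e1 : min 1 |g k x - z (g k)| ≤ 1 := min_le_left _ _
    have e2 : ((1 / 4 : ℝ)) ^ k ≤ (1 / 2 : ℝ) ^ k := pow_le_pow_left₀ (by norm_num) (by norm_num) k
    calc t k x ≤ (1 / 4 : ℝ) ^ k * 1 := mul_le_mul_of_nonneg_left e1 (by positivity)
      _ = (1 / 4 : ℝ) ^ k := mul_one _
      _ ≤ _ := e2
  have hs : ∀ x, Summable (fun k => t k x) := fun x =>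
    Summable.of_nonneg_of_le (fun k => ht0 k x) (fun k => ht1 k x) summable_geometric_two
  let h : X → ℝ := fun x => ∑' k, t k x
  have hc : Continuous h := by
    refine continuous_tsum (u := fun k => (1 / 2 : ℝ) ^ k) (fun k => ?_) summable_geometric_two ?_
    · exact continuous_const.mul (continuous_const.min (((g k).continuous.sub continuous_const).abs))
    · intro k x
      rw [Real.norm_eq_abs, abs_of_nonneg (ht0 k x)]
      exact ht1 k x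
  have hp : ∀ x, 0 < h x := by
    intro x
    obtain ⟨k, hk⟩ := hne x
    refine (hs x).tsum_pos (fun k => ht0 k x) k ?_
    have : 0 < |g k x - z (g k)| := abs_pos.mpr (sub_ne_zero.mpr hk)
    have h2 : 0 < min 1 |g k x - z (g k)| := lt_min one_pos this
    exact mul_pos (by positivity) h2
  let u : C(X, ℝ) := ⟨fun x => (h x)⁻¹, hc.inv₀ (fun x => (hp x).ne')⟩
  have hM : 0 < (|z u| + 1)⁻¹ := by positivity
  obtain ⟨N, hN⟩ := exists_pow_lt_of_lt_one (half_pos hM) (show (1 / 2 : ℝ) < 1 by norm_num)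
  obtain ⟨q, ⟨x, rfl⟩, hx⟩ := mem_closure_pi_real.mp hz (insert u ((Finset.range N).image g))
    ((1 / 2 : ℝ) ^ N) (by positivity)
  have hxu := hx u (Finset.mem_insert_self _ _)
  have hxg : ∀ k < N, |g k x - z (g k)| < (1 / 2 : ℝ) ^ N := fun k hk =>
    hx (g k) (Finset.mem_insert_of_mem (Finset.mem_image_of_mem g (Finset.mem_range.mpr hk)))
  have hle : ∀ k, t k x ≤ (1 / 2 : ℝ) ^ N * (1 / 2 : ℝ) ^ k := by
    intro k
    have e4 : (1 / 4 : ℝ) ^ k = (1 / 2 : ℝ) ^ k * (1 / 2 : ℝ) ^ k := by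
      rw [← mul_pow]; norm_num
    by_cases hk : k < N
    · calc t k x ≤ (1 / 4 : ℝ) ^ k * (1 / 2 : ℝ) ^ N :=
            mul_le_mul_of_nonneg_left ((min_le_right _ _).trans (hxg k hk).le) (by positivity)
        _ ≤ (1 / 2 : ℝ) ^ k * (1 / 2 : ℝ) ^ N :=
            mul_le_mul_of_nonneg_right (pow_le_pow_left₀ (by norm_num) (by norm_num) k) (by positivity)
        _ = _ := mul_comm _ _
    · calc t k x ≤ (1 / 4 : ℝ) ^ k * 1 := mul_le_mul_of_nonneg_left (min_le_left _ _) (by positivity)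
        _ = (1 / 2 : ℝ) ^ k * (1 / 2 : ℝ) ^ k := by rw [mul_one, e4]
        _ ≤ _ := mul_le_mul_of_nonneg_right
            (pow_le_pow_of_le_one (by norm_num) (by norm_num) (not_lt.mp hk)) (by positivity)
  have hh : h x ≤ (1 / 2 : ℝ) ^ N * 2 := by
    calc h x ≤ ∑' k, (1 / 2 : ℝ) ^ N * (1 / 2 : ℝ) ^ k :=
          (hs x).tsum_le_tsum hle (summable_geometric_two.mul_left _)
      _ = (1 / 2 : ℝ) ^ N * 2 := by rw [tsum_mul_left, tsum_geometric_two]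
  have hlt : h x < (|z u| + 1)⁻¹ := by linarith
  have hu1 : |z u| + 1 < u x := by
    change |z u| + 1 < (h x)⁻¹
    rw [lt_inv_comm₀ (by positivity) (hp x)]
    exact hlt
  have h1 : (1 / 2 : ℝ) ^ N ≤ 1 := pow_le_one₀ (by norm_num) (by norm_num)
  have h2 : |u x - z u| < 1 := lt_of_lt_of_le hxu h1
  have h3 := (abs_lt.mp h2).2
  have h4 := le_abs_self (z u)
  linarith

/-- countable compactness at finitely many points of the closure simultaneously -/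
def CCH (𝒦 : Set C(X, ℝ)) : Prop :=
  ∀ f : ℕ → C(X, ℝ), (∀ n, f n ∈ 𝒦) → ∃ g ∈ 𝒦, ∀ n : ℕ, ∀ Z : Finset (C(X, ℝ) → ℝ),
    (∀ z ∈ Z, z ∈ HH X) → ∀ ε : ℝ, 0 < ε → ∃ k ≥ n, ∀ z ∈ Z, |z (f k) - z g| < ε

theorem cch_of {K : Set (X → ℝ)} (hc : ∀ f ∈ K, Continuous f)
    (hK : ∀ U : ℕ → Set (X → ℝ), (∀ n, IsOpen (U n)) → K ⊆ ⋃ n, U n →
      ∃ N : ℕ, K ⊆ ⋃ n ∈ Finset.range N, U n) {D : Set (X → ℝ)} (hD : IsClosed D) :
    CCH {f : C(X, ℝ) | (f : X → ℝ) ∈ K ∧ (f : X → ℝ) ∈ D} := by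
  classical
  intro f hf
  have hg : ∃ g ∈ K, ∀ n, g ∈ closure ((fun k => (f k : X → ℝ)) '' Ici n) := by
    by_contra! hne
    obtain ⟨N, hN⟩ := hK (fun n => (closure ((fun k => (f k : X → ℝ)) '' Ici n))ᶜ)
      (fun n => isClosed_closure.isOpen_compl) (fun g hg => mem_iUnion.mpr (hne g hg))
    have h1 := hN (hf N).1
    simp only [mem_iUnion, Finset.mem_range] at h1
    obtain ⟨n, hn, hn2⟩ := h1
    exact hn2 (subset_closure ⟨N, hn.le, rfl⟩)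
  obtain ⟨g, hgK, hg⟩ := hg
  have hgD : g ∈ D := by
    refine closure_minimal ?_ hD (hg 0)
    rintro _ ⟨k, -, rfl⟩
    exact (hf k).2
  refine ⟨⟨g, hc g hgK⟩, ⟨hgK, hgD⟩, ?_⟩
  intro n Z hZ ε hε
  have hx : ∀ z : C(X, ℝ) → ℝ, z ∈ HH X → ∃ x, g x = z ⟨g, hc g hgK⟩ ∧ ∀ k, f k x = z (f k) := by
    intro z hz
    obtain ⟨x, hx⟩ := lemA hz (fun k => Nat.casesOn k ⟨g, hc g hgK⟩ f)
    exact ⟨x, hx 0, fun k => hx (k + 1)⟩
  choose xs hxs1 hxs2 using hx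
  let Y : Finset X := Z.attach.image (fun z : {z // z ∈ Z} => xs z.1 (hZ z.1 z.2))
  obtain ⟨q, ⟨k, hk, hkq⟩, hk2⟩ := mem_closure_pi_real.mp (hg n) Y ε hε
  refine ⟨k, hk, fun z hz => ?_⟩
  have := hk2 (xs z (hZ z hz)) (Finset.mem_image.mpr ⟨⟨z, hz⟩, Finset.mem_attach _ _, rfl⟩)
  rw [← hkq] at this
  change |(f k) (xs z (hZ z hz)) - g (xs z (hZ z hz))| < ε at this
  rwa [hxs2 z (hZ z hz) k, hxs1 z (hZ z hz)] at this

theorem cch_single {𝒦 : Set C(X, ℝ)} {f : ℕ → C(X, ℝ)} {g : C(X, ℝ)}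
    (h : ∀ n : ℕ, ∀ Z : Finset (C(X, ℝ) → ℝ),
    (∀ z ∈ Z, z ∈ HH X) → ∀ ε : ℝ, 0 < ε → ∃ k ≥ n, ∀ z ∈ Z, |z (f k) - z g| < ε)
    {z : C(X, ℝ) → ℝ} (hz : z ∈ HH X) : ∀ n, ∀ ε : ℝ, 0 < ε → ∃ k ≥ n, |z (f k) - z g| < ε := by
  intro n ε hε
  obtain ⟨k, hk, hk2⟩ := h n {z} (by simpa using hz) ε hε
  exact ⟨k, hk, hk2 z (by simp)⟩

theorem bdG {𝒦 : Set C(X, ℝ)} (h𝒦 : CCH 𝒦) {L : Set (C(X, ℝ) → ℝ)}
    (hL : IsCompact L) (hLH : L ⊆ HH X) (G : (C(X, ℝ) → ℝ) → ℝ)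
    (hG : ∀ E : Finset (C(X, ℝ) → ℝ), (∀ z ∈ E, z ∈ L) → ∀ ε : ℝ, 0 < ε →
      ∃ f ∈ 𝒦, ∀ z ∈ E, |z f - G z| < ε) :
    ∃ C, ∀ z ∈ L, |G z| ≤ C := by
  classical
  by_contra! h
  choose z hz hzG using fun j : ℕ => h j
  have hE : ∀ j : ℕ, ∀ y ∈ (Finset.range (j + 1)).image z, y ∈ L := by
    intro j y hy
    obtain ⟨i, -, rfl⟩ := Finset.mem_image.mp hy
    exact hz i
  choose f hf hfz using fun j : ℕ => hG ((Finset.range (j + 1)).image z) (hE j) (1 / ((j : ℝ) + 1))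
    (by positivity)
  obtain ⟨g, hg, hcl⟩ := h𝒦 f hf
  have hkey : ∀ i, G (z i) = z i g := by
    intro i
    refine eq_of_cluster (u := fun k => z i (f k)) (i := i) ?_
      (cch_single (𝒦 := 𝒦) hcl (hLH (hz i)))
    intro k hk
    exact (hfz k (z i) (Finset.mem_image_of_mem z (Finset.mem_range.mpr (by omega)))).le
  obtain ⟨C, hC⟩ := hL.exists_bound_of_continuousOn (f := fun z : C(X, ℝ) → ℝ => z g)
    (continuous_apply g).continuousOn
  obtain ⟨n, hn⟩ := exists_nat_gt C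
  have h1 := hzG n
  rw [hkey n] at h1
  have h2 := hC (z n) (hz n)
  rw [Real.norm_eq_abs] at h2
  linarith

theorem net {L : Set (C(X, ℝ) → ℝ)}
    (hL : IsCompact L) (G : (C(X, ℝ) → ℝ) → ℝ) {C : ℝ} (hC : ∀ z ∈ L, |G z| ≤ C)
    (Fs : Finset C(X, ℝ)) {ε : ℝ} (hε : 0 < ε) :
    ∃ E : Finset (C(X, ℝ) → ℝ), (∀ z ∈ E, z ∈ L) ∧
      ∀ z ∈ L, ∃ e ∈ E, (∀ g ∈ Fs, |e g - z g| < ε) ∧ |G e - G z| < ε := by
  classical
  let Φ : (C(X, ℝ) → ℝ) → ((Fs → ℝ) × ℝ) := fun z => (fun g => z g.1, G z)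
  have hb : ∀ g : C(X, ℝ), ∃ R, ∀ z ∈ L, |z g| ≤ R := by
    intro g
    obtain ⟨R, hR⟩ := hL.exists_bound_of_continuousOn (f := fun z : C(X, ℝ) → ℝ => z g)
      (continuous_apply g).continuousOn
    exact ⟨R, fun z hz => by simpa [Real.norm_eq_abs] using hR z hz⟩
  choose R hR using hb
  have hbd : Bornology.IsBounded (Φ '' L) := by
    rw [isBounded_iff_forall_norm_le]
    refine ⟨∑ g ∈ Fs, |R g| + |C|, ?_⟩
    rintro _ ⟨z, hz, rfl⟩
    have hnn : 0 ≤ ∑ g ∈ Fs, |R g| := Finset.sum_nonneg (fun _ _ => abs_nonneg _)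
    rw [Prod.norm_def]
    refine max_le ?_ ?_
    · rw [pi_norm_le_iff_of_nonneg (by positivity)]
      intro g
      rw [Real.norm_eq_abs]
      have h1 : |R g.1| ≤ ∑ g ∈ Fs, |R g| :=
        Finset.single_le_sum (f := fun g => |R g|) (fun _ _ => abs_nonneg _) g.2
      have h2 := (hR g.1 z hz).trans (le_abs_self _)
      have h3 := abs_nonneg C
      change |z g.1| ≤ _
      linarith
    · rw [Real.norm_eq_abs]
      have h1 := (hC z hz).trans (le_abs_self _)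
      change |G z| ≤ _
      linarith
  have htb : TotallyBounded (Φ '' L) := hbd.isCompact_closure.totallyBounded.subset subset_closure
  obtain ⟨t, htL, htf, hcov⟩ := htb.exists_subset (Metric.dist_mem_uniformity hε)
  obtain ⟨E, hEL, hEf, hE⟩ := (exists_subset_image_finite_and
    (p := fun t => Φ '' L ⊆ ⋃ y ∈ t, {x | (x, y) ∈ {p : ((Fs → ℝ) × ℝ) × ((Fs → ℝ) × ℝ) | dist p.1 p.2 < ε}})).mp
    ⟨t, htL, htf, hcov⟩
  refine ⟨hEf.toFinset, fun z hz => hEL (hEf.mem_toFinset.mp hz), ?_⟩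
  intro z hz
  have h1 := hE (mem_image_of_mem Φ hz)
  simp only [mem_iUnion] at h1
  obtain ⟨y, ⟨e, he, rfl⟩, hy⟩ := h1
  have hd : dist (Φ z) (Φ e) < ε := hy
  refine ⟨e, hEf.mem_toFinset.mpr he, ?_, ?_⟩
  · intro g hg
    have h2 : dist ((Φ z).1 ⟨g, hg⟩) ((Φ e).1 ⟨g, hg⟩) < ε :=
      lt_of_le_of_lt (dist_le_pi_dist _ _ _) (lt_of_le_of_lt (le_max_left _ _) hd)
    rw [dist_comm, Real.dist_eq] at h2
    exact h2
  · have h2 : dist (Φ z).2 (Φ e).2 < ε := lt_of_le_of_lt (le_max_right _ _) hd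
    rw [dist_comm, Real.dist_eq] at h2
    exact h2

theorem lemE {𝒦 : Set C(X, ℝ)} (h𝒦 : CCH 𝒦) (L : ℕ → Set (C(X, ℝ) → ℝ))
    (hL : ∀ n, IsCompact (L n)) (hLH : ∀ n, L n ⊆ HH X) (G : (C(X, ℝ) → ℝ) → ℝ)
    (hG : ∀ E : Finset (C(X, ℝ) → ℝ), (∀ z ∈ E, z ∈ ⋃ n, L n) → ∀ ε : ℝ, 0 < ε →
      ∃ f ∈ 𝒦, ∀ z ∈ E, |z f - G z| < ε) :
    ∃ f ∈ 𝒦, ∀ z ∈ ⋃ n, L n, z f = G z := by
  classical
  have hbd : ∀ m, ∃ C, ∀ z ∈ L m, |G z| ≤ C := fun m =>
    bdG h𝒦 (hL m) (hLH m) G (fun E hE => hG E (fun z hz => mem_iUnion.mpr ⟨m, hE z hz⟩))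
  choose B hB using hbd
  -- the choice of functions
  have hpick : ∀ (Es : Finset (C(X, ℝ) → ℝ)) (k : ℕ), ∃ f : C(X, ℝ), (∀ z ∈ Es, z ∈ ⋃ n, L n) →
      (f ∈ 𝒦 ∧ ∀ z ∈ Es, |z f - G z| < 1 / ((k : ℝ) + 1)) := by
    intro Es k
    by_cases h : ∀ z ∈ Es, z ∈ ⋃ n, L n
    · obtain ⟨f, hf, hf2⟩ := hG Es h (1 / ((k : ℝ) + 1)) (by positivity)
      exact ⟨f, fun _ => ⟨hf, hf2⟩⟩
    · exact ⟨0, fun h' => absurd h' h⟩
  choose pick hpick using hpick
  -- the choice of nets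
  have hEf : ∀ (Fs : Finset C(X, ℝ)) (k : ℕ), ∃ E : Finset (C(X, ℝ) → ℝ), (∀ z ∈ E, z ∈ ⋃ n, L n) ∧
      ∀ m ≤ k, ∀ z ∈ L m, ∃ e ∈ E, e ∈ L m ∧ (∀ g ∈ Fs, |e g - z g| < 1 / ((k : ℝ) + 1)) ∧
        |G e - G z| < 1 / ((k : ℝ) + 1) := by
    intro Fs k
    choose E hE1 hE2 using fun m => net (hL m) G (hB m) Fs (show (0 : ℝ) < 1 / ((k : ℝ) + 1) by positivity)
    refine ⟨(Finset.range (k + 1)).biUnion E, ?_, ?_⟩
    · intro z hz
      obtain ⟨m, -, hm⟩ := Finset.mem_biUnion.mp hz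
      exact mem_iUnion.mpr ⟨m, hE1 m z hm⟩
    · intro m hm z hz
      obtain ⟨e, he, he2, he3⟩ := hE2 m z hz
      exact ⟨e, Finset.mem_biUnion.mpr ⟨m, Finset.mem_range.mpr (by omega), he⟩, hE1 m e he, he2, he3⟩
  choose Ef hEf1 hEf2 using hEf
  let s : ℕ → Finset C(X, ℝ) × Finset (C(X, ℝ) → ℝ) := fun k => Nat.rec (∅, ∅)
    (fun k s => (insert (pick s.2 k) s.1, s.2 ∪ Ef (insert (pick s.2 k) s.1) k)) k
  let f : ℕ → C(X, ℝ) := fun k => pick (s k).2 k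
  have hs1 : ∀ k, (s (k + 1)).1 = insert (f k) (s k).1 := fun k => rfl
  have hs2 : ∀ k, (s (k + 1)).2 = (s k).2 ∪ Ef (s (k + 1)).1 k := fun k => rfl
  have hsL : ∀ k, ∀ z ∈ (s k).2, z ∈ ⋃ n, L n := by
    intro k
    induction k with
    | zero => intro z hz; exact absurd hz (Finset.notMem_empty z)
    | succ k ih =>
      intro z hz
      rw [hs2] at hz
      rcases Finset.mem_union.mp hz with hz | hz
      · exact ih z hz
      · exact hEf1 _ _ z hz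
  have hm1 : Monotone (fun k => (s k).1) := monotone_nat_of_le_succ (fun k => by
    simp only [hs1]; exact Finset.subset_insert _ _)
  have hm2 : Monotone (fun k => (s k).2) := monotone_nat_of_le_succ (fun k => by
    simp only [hs2 k]; exact Finset.subset_union_left)
  have hf𝒦 : ∀ k, f k ∈ 𝒦 := fun k => (hpick (s k).2 k (hsL k)).1
  have hfG : ∀ j, ∀ e ∈ (s j).2, ∀ k ≥ j, |e (f k) - G e| ≤ 1 / ((k : ℝ) + 1) := fun j e he k hk =>
    ((hpick (s k).2 k (hsL k)).2 e (hm2 hk he)).le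
  obtain ⟨w, hw, hcl⟩ := h𝒦 f hf𝒦
  have hewG : ∀ j, ∀ e ∈ (s j).2, G e = e w := by
    intro j e he
    have heH : e ∈ HH X := by
      obtain ⟨n, hn⟩ := mem_iUnion.mp (hsL j e he)
      exact hLH n hn
    exact eq_of_cluster (u := fun k => e (f k)) (i := j) (hfG j e he) (cch_single (𝒦 := 𝒦) hcl heH)
  refine ⟨w, hw, ?_⟩
  intro z hz
  obtain ⟨m, hzm⟩ := mem_iUnion.mp hz
  choose e he1 he2 he3 he4 using fun j : ℕ => hEf2 (s (m + j + 1)).1 (m + j) m (by omega) z hzm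
  have hej : ∀ j, G (e j) = e j w := fun j => by
    refine hewG (m + j + 1) (e j) ?_
    rw [hs2]
    exact Finset.mem_union_right _ (he1 j)
  have hjj : ∀ j : ℕ, (1 : ℝ) / (((m + j : ℕ) : ℝ) + 1) ≤ 1 / ((j : ℝ) + 1) := by
    intro j
    apply one_div_le_one_div_of_le (by positivity)
    push_cast
    have : (0 : ℝ) ≤ m := Nat.cast_nonneg m
    linarith
  obtain ⟨zs, hzs, hzcl⟩ := (hL m).exists_mapClusterPt (f := Filter.atTop) (u := e) (by
    rw [Filter.le_principal_iff, Filter.mem_map]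
    exact Filter.univ_mem' he2)
  have hcoord : ∀ g : C(X, ℝ), ∀ n : ℕ, ∀ ε : ℝ, 0 < ε → ∃ k ≥ n, |e k g - zs g| < ε := by
    intro g n ε hε
    have h1 : {y : C(X, ℝ) → ℝ | |y g - zs g| < ε} ∈ 𝓝 zs := by
      apply IsOpen.mem_nhds
      · exact isOpen_lt ((continuous_apply g).sub continuous_const).abs continuous_const
      · simpa using hε
    have h2 := (mapClusterPt_iff_frequently.mp hzcl) _ h1
    rw [Filter.frequently_atTop] at h2
    obtain ⟨k, hk, hk2⟩ := h2 n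
    exact ⟨k, hk, hk2⟩
  have hzf : ∀ i, z (f i) = zs (f i) := by
    intro i
    refine eq_of_cluster (u := fun k => e k (f i)) (i := i) ?_ (hcoord (f i))
    intro k hk
    refine le_trans (he3 k (f i) ?_).le (hjj k)
    have : (s (i + 1)).1 ⊆ (s (m + k + 1)).1 := hm1 (show i + 1 ≤ m + k + 1 by omega)
    apply this
    rw [hs1]
    exact Finset.mem_insert_self _ _
  have hzG : G z = zs w := by
    refine eq_of_cluster (u := fun k => e k w) (i := 0) ?_ (hcoord w)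
    intro k _
    rw [← hej k]
    exact le_trans (he4 k).le (hjj k)
  rw [hzG]
  by_contra hne
  have hpos : 0 < |z w - zs w| := abs_pos.mpr (sub_ne_zero.mpr hne)
  obtain ⟨k, -, hk⟩ := hcl 0 {z, zs} (by
    intro y hy
    rcases Finset.mem_insert.mp hy with rfl | hy
    · exact hLH m hzm
    · rw [Finset.mem_singleton.mp hy]; exact hLH m hzs) (|z w - zs w| / 2) (half_pos hpos)
  have h1 := hk z (by simp)
  have h2 := hk zs (by simp)
  rw [← hzf k] at h2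
  have h3 : |z w - zs w| ≤ |z (f k) - z w| + |z (f k) - zs w| := by
    have e0 : z w - zs w = (z (f k) - zs w) - (z (f k) - z w) := by ring
    rw [e0]
    calc |(z (f k) - zs w) - (z (f k) - z w)| ≤ |z (f k) - zs w| + |z (f k) - z w| := abs_sub _ _
      _ = _ := add_comm _ _
  linarith

/-- the evaluation on the union of the pieces -/
def ev (L : ℕ → Set (C(X, ℝ) → ℝ)) (f : C(X, ℝ)) : {z : C(X, ℝ) → ℝ // z ∈ ⋃ n, L n} → ℝ := fun z => z.1 f

theorem ev_closed {𝒦 : Set C(X, ℝ)} (h𝒦 : CCH 𝒦) (L : ℕ → Set (C(X, ℝ) → ℝ))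
    (hL : ∀ n, IsCompact (L n)) (hLH : ∀ n, L n ⊆ HH X) : IsClosed (ev L '' 𝒦) := by
  classical
  refine isClosed_of_closure_subset ?_
  intro p hp
  let G : (C(X, ℝ) → ℝ) → ℝ := fun z => if h : z ∈ ⋃ n, L n then p ⟨z, h⟩ else 0
  have hGp : ∀ z (h : z ∈ ⋃ n, L n), G z = p ⟨z, h⟩ := fun z h => dif_pos h
  obtain ⟨f, hf, hf2⟩ := lemE h𝒦 L hL hLH G (by
    intro E hE ε hε
    let Y : Finset {z : C(X, ℝ) → ℝ // z ∈ ⋃ n, L n} :=
      E.attach.image (fun z : {z // z ∈ E} => ⟨z.1, hE z.1 z.2⟩)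
    obtain ⟨q, ⟨f, hf, rfl⟩, hq⟩ := mem_closure_pi_real.mp hp Y ε hε
    refine ⟨f, hf, fun z hz => ?_⟩
    have := hq ⟨z, hE z hz⟩ (Finset.mem_image.mpr ⟨⟨z, hz⟩, Finset.mem_attach _ _, rfl⟩)
    rw [hGp z (hE z hz)]
    exact this)
  exact ⟨f, hf, funext fun z => (hf2 z.1 z.2).trans (hGp z.1 z.2)⟩

theorem ptbd {𝒦 : Set C(X, ℝ)} (h𝒦 : CCH 𝒦) {z : C(X, ℝ) → ℝ} (hz : z ∈ HH X) :
    ∃ C, ∀ f ∈ 𝒦, |z f| ≤ C := by
  by_contra! h
  choose f hf hfz using fun j : ℕ => h j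
  obtain ⟨g, hg, hcl⟩ := h𝒦 f hf
  obtain ⟨n, hn⟩ := exists_nat_gt (|z g| + 1)
  obtain ⟨k, hk, hk2⟩ := cch_single (𝒦 := 𝒦) hcl hz n 1 one_pos
  have h1 := hfz k
  have h2 : |z (f k)| ≤ |z (f k) - z g| + |z g| := by
    have e0 : z (f k) = (z (f k) - z g) + z g := by ring
    calc |z (f k)| = |(z (f k) - z g) + z g| := by rw [← e0]
      _ ≤ _ := abs_add_le _ _
  have h3 : (n : ℝ) ≤ k := by exact_mod_cast hk
  linarith

theorem ev_compact {𝒦 : Set C(X, ℝ)} (h𝒦 : CCH 𝒦) (L : ℕ → Set (C(X, ℝ) → ℝ))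
    (hL : ∀ n, IsCompact (L n)) (hLH : ∀ n, L n ⊆ HH X) : IsCompact (ev L '' 𝒦) := by
  have hb : ∀ z : {z : C(X, ℝ) → ℝ // z ∈ ⋃ n, L n}, ∃ C, ∀ f ∈ 𝒦, |z.1 f| ≤ C := by
    intro z
    obtain ⟨n, hn⟩ := mem_iUnion.mp z.2
    exact ptbd h𝒦 (hLH n hn)
  choose C hC using hb
  refine IsCompact.of_isClosed_subset (isCompact_univ_pi (fun z => isCompact_Icc (a := -C z) (b := C z)))
    (ev_closed h𝒦 L hL hLH) ?_
  rintro _ ⟨f, hf, rfl⟩ z _
  exact abs_le.mp (hC z f hf)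

theorem ev_inj (L : ℕ → Set (C(X, ℝ) → ℝ)) {S : Set X} (hS : Dense S) (hSL : ∀ x ∈ S, io x ∈ ⋃ n, L n)
    {f g : C(X, ℝ)} (h : ev L f = ev L g) : f = g := by
  have : (f : X → ℝ) = g := Continuous.ext_on hS f.continuous g.continuous
    (fun x hx => congrFun h ⟨io x, hSL x hx⟩)
  exact DFunLike.coe_injective this

theorem compact_and_cont (L : ℕ → Set (C(X, ℝ) → ℝ))
    (hL : ∀ n, IsCompact (L n)) (hLH : ∀ n, L n ⊆ HH X) {S : Set X} (hS : Dense S)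
    (hSL : ∀ x ∈ S, io x ∈ ⋃ n, L n)
    {K : Set (X → ℝ)} (hc : ∀ f ∈ K, Continuous f)
    (hK : ∀ U : ℕ → Set (X → ℝ), (∀ n, IsOpen (U n)) → K ⊆ ⋃ n, U n →
      ∃ N : ℕ, K ⊆ ⋃ n ∈ Finset.range N, U n) :
    IsCompact K ∧ ∀ z ∈ ⋃ n, L n, Continuous (fun k : K => z ⟨k.1, hc k.1 k.2⟩) := by
  classical
  let 𝒦 : Set C(X, ℝ) := {f : C(X, ℝ) | (f : X → ℝ) ∈ K}
  have h𝒦 : CCH 𝒦 := by
    have := cch_of hc hK isClosed_univ
    simpa using this
  let T : Set ({z : C(X, ℝ) → ℝ // z ∈ ⋃ n, L n} → ℝ) := ev L '' 𝒦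
  have hT : IsCompact T := ev_compact h𝒦 L hL hLH
  have : CompactSpace T := isCompact_iff_compactSpace.mp hT
  choose R hR1 hR2 using fun p : T => p.2
  let ρ : T → K := fun p => ⟨R p, hR1 p⟩
  have hρ : Continuous ρ := by
    refine Continuous.subtype_mk (continuous_iff_isClosed.mpr ?_) _
    intro D hD
    have hcl := ev_closed (cch_of hc hK hD) L hL hLH
    have heq : (fun p : T => (R p : X → ℝ)) ⁻¹' D = Subtype.val ⁻¹'
        (ev L '' {f : C(X, ℝ) | (f : X → ℝ) ∈ K ∧ (f : X → ℝ) ∈ D}) := by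
      ext p
      constructor
      · intro h
        exact ⟨R p, ⟨hR1 p, h⟩, hR2 p⟩
      · rintro ⟨f, ⟨hfK, hfD⟩, hfp⟩
        have : f = R p := ev_inj L hS hSL (hfp.trans (hR2 p).symm)
        rw [this] at hfD
        exact hfD
    rw [heq]
    exact hcl.preimage continuous_subtype_val
  have hinj : Function.Injective ρ := by
    intro p q h
    have h1 : (R p : X → ℝ) = R q := congrArg Subtype.val h
    have h2 : R p = R q := DFunLike.coe_injective h1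
    apply Subtype.ext
    rw [← hR2 p, ← hR2 q, h2]
  have hlift : ∀ k : K, ∃ p : T, R p = ⟨k.1, hc k.1 k.2⟩ := by
    intro k
    have hk : (⟨k.1, hc k.1 k.2⟩ : C(X, ℝ)) ∈ 𝒦 := k.2
    exact ⟨⟨ev L ⟨k.1, hc k.1 k.2⟩, ⟨_, hk, rfl⟩⟩, ev_inj L hS hSL (hR2 _)⟩
  have hsurj : Function.Surjective ρ := by
    intro k
    obtain ⟨p, hp⟩ := hlift k
    refine ⟨p, Subtype.ext ?_⟩
    change (R p : X → ℝ) = k.1
    rw [hp]
    rfl
  have hKc : CompactSpace K := hsurj.compactSpace hρ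
  let e : T ≃ₜ K := Continuous.homeoOfEquivCompactToT2 (f := Equiv.ofBijective ρ ⟨hinj, hsurj⟩) hρ
  refine ⟨isCompact_iff_compactSpace.mpr hKc, ?_⟩
  intro z hz
  have heq : (fun k : K => z ⟨k.1, hc k.1 k.2⟩) = fun k : K => (e.symm k).1 ⟨z, hz⟩ := by
    funext k
    have h1 : e (e.symm k) = k := e.apply_symm_apply k
    have h2 : (R (e.symm k) : X → ℝ) = k.1 := congrArg Subtype.val h1
    have h3 : R (e.symm k) = ⟨k.1, hc k.1 k.2⟩ := DFunLike.coe_injective h2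
    have h4 := congrFun (hR2 (e.symm k)) ⟨z, hz⟩
    rw [← h4]
    change _ = z (R (e.symm k))
    rw [h3]
  rw [heq]
  exact (continuous_apply _).comp (continuous_subtype_val.comp e.symm.continuous)

open Pool.Agent.Helper639.Ebl in
theorem eberlein (L : ℕ → Set (C(X, ℝ) → ℝ))
    (hL : ∀ n, IsCompact (L n)) {S : Set X} (hS : Dense S)
    (hSL : ∀ x ∈ S, io x ∈ ⋃ n, L n)
    {K : Set (X → ℝ)} (hc : ∀ f ∈ K, Continuous f) (hKc : IsCompact K)
    (hz : ∀ z ∈ ⋃ n, L n, Continuous (fun k : K => z ⟨k.1, hc k.1 k.2⟩)) :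
    ∃ (Γ : Type) (e : K → (Γ → ℝ)), Topology.IsEmbedding e ∧
      ∀ k : K, ∀ ε : ℝ, 0 < ε → {γ : Γ | ε ≤ |e k γ|}.Finite := by
  classical
  have : CompactSpace K := isCompact_iff_compactSpace.mp hKc
  have : ∀ n, CompactSpace (L n) := fun n => isCompact_iff_compactSpace.mp (hL n)
  let ψ : K → (Σ n, L n) → ℝ := fun k q => Pool.Agent.Helper639.Ebl.sq (q.2.1 ⟨k.1, hc k.1 k.2⟩) / ((q.1 : ℝ) + 1)
  have hψ1 : ∀ k, Continuous (ψ k) := by
    intro k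
    refine continuous_sigma ?_
    intro n
    have e1 : Continuous (fun z : L n => z.1 ⟨k.1, hc k.1 k.2⟩) :=
      (continuous_apply (⟨k.1, hc k.1 k.2⟩ : C(X, ℝ))).comp continuous_subtype_val
    have e2 : Continuous (fun z : L n => Pool.Agent.Helper639.Ebl.sq (z.1 ⟨k.1, hc k.1 k.2⟩) / ((n : ℝ) + 1)) :=
      (sq_continuous.comp e1).div_const _
    exact e2
  have hψ2 : ∀ q, Continuous (fun k => ψ k q) := by
    intro q
    exact (sq_continuous.comp (hz q.2.1 (mem_iUnion.mpr ⟨q.1, q.2.2⟩))).div_const _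
  let φ : K → OnePoint (Σ n, L n) → ℝ := fun k p => OnePoint.elim p 0 (ψ k)
  obtain ⟨Γ, h, hh, hinj⟩ := al (K := K) (F := OnePoint (Σ n, L n)) φ
    (by
      intro p
      induction p using OnePoint.rec with
      | infty => exact continuous_const
      | coe q => exact hψ2 q)
    (by
      intro k
      rw [OnePoint.continuous_iff]
      refine ⟨?_, hψ1 k⟩
      change Filter.Tendsto (ψ k) _ (𝓝 0)
      rw [Metric.tendsto_nhds]
      intro ε hε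
      obtain ⟨N, hN⟩ := exists_nat_one_div_lt hε
      refine Filter.mem_of_superset (IsCompact.compl_mem_coclosedCompact_of_isClosed
        (s := ⋃ n ∈ Iic N, (Sigma.mk n '' univ : Set (Σ n, L n))) ?_ ?_) ?_
      · exact (finite_Iic N).isCompact_biUnion (fun n _ => isCompact_univ.image continuous_sigmaMk)
      · refine (finite_Iic N).isClosed_biUnion (fun n _ => ?_)
        exact (Topology.IsClosedEmbedding.sigmaMk.isClosedMap) _ isClosed_univ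
      · rintro ⟨n, z⟩ hq
        have hn : N < n := by
          by_contra hle
          exact hq (mem_biUnion (show n ∈ Iic N from not_lt.mp hle) ⟨z, mem_univ _, rfl⟩)
        change dist (Pool.Agent.Helper639.Ebl.sq _ / ((n : ℝ) + 1)) 0 < ε
        rw [dist_zero_right, Real.norm_eq_abs, abs_div, abs_of_pos (show (0 : ℝ) < (n : ℝ) + 1 by positivity)]
        have h1 : |Pool.Agent.Helper639.Ebl.sq (z.1 ⟨k.1, hc k.1 k.2⟩)| / ((n : ℝ) + 1) ≤ 1 / ((n : ℝ) + 1) :=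
          div_le_div_of_nonneg_right (sq_le_one _) (by positivity)
        have h2 : (1 : ℝ) / ((n : ℝ) + 1) ≤ 1 / ((N : ℝ) + 1) := by
          apply one_div_le_one_div_of_le (by positivity)
          have : (N : ℝ) < n := by exact_mod_cast hn
          linarith
        exact lt_of_le_of_lt (h1.trans h2) hN)
    (by
      intro k k' hkk
      apply Subtype.ext
      have hcomp : ev L ⟨k.1, hc k.1 k.2⟩ = ev L ⟨k'.1, hc k'.1 k'.2⟩ := by
        funext z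
        obtain ⟨n, hn⟩ := mem_iUnion.mp z.2
        have h1 : ψ k ⟨n, ⟨z.1, hn⟩⟩ = ψ k' ⟨n, ⟨z.1, hn⟩⟩ := hkk (((⟨n, ⟨z.1, hn⟩⟩ : Σ n, L n)) : OnePoint (Σ n, L n))
        have h2 : ((n : ℝ) + 1) ≠ 0 := by positivity
        exact sq_inj ((div_left_inj' h2).mp h1)
      have := ev_inj L hS hSL hcomp
      exact congrArg DFunLike.coe this)
  exact ⟨Γ, h, ((continuous_pi hh.cont).isClosedEmbedding hinj).isEmbedding, hh.fin⟩

theorem main (A : ℕ → Set X) (hA : ∀ n, ∀ f : X → ℝ, Continuous f → ∃ C : ℝ, ∀ x ∈ A n, |f x| ≤ C)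
    (hd : Dense (⋃ n, A n)) (K : Set (X → ℝ)) (hc : ∀ f ∈ K, Continuous f)
    (hK : ∀ U : ℕ → Set (X → ℝ), (∀ n, IsOpen (U n)) → K ⊆ ⋃ n, U n →
      ∃ N : ℕ, K ⊆ ⋃ n ∈ Finset.range N, U n) :
    IsCompact K ∧ ∃ (Γ : Type) (e : K → (Γ → ℝ)), Topology.IsEmbedding e ∧
      ∀ k : K, ∀ ε : ℝ, 0 < ε → {γ : Γ | ε ≤ |e k γ|}.Finite := by
  let L : ℕ → Set (C(X, ℝ) → ℝ) := fun n => closure (io '' A n)
  have hL : ∀ n, IsCompact (L n) := by
    intro n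
    choose C hC using fun f : C(X, ℝ) => hA n f f.continuous
    refine IsCompact.of_isClosed_subset (isCompact_univ_pi (fun f => isCompact_Icc (a := -C f) (b := C f)))
      isClosed_closure (closure_minimal ?_ (isClosed_set_pi (fun f _ => isClosed_Icc)))
    rintro _ ⟨x, hx, rfl⟩ f _
    exact abs_le.mp (hC f x hx)
  have hLH : ∀ n, L n ⊆ HH X := fun n => closure_mono (image_subset_range _ _)
  have hSL : ∀ x ∈ ⋃ n, A n, io x ∈ ⋃ n, L n := by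
    intro x hx
    obtain ⟨n, hn⟩ := mem_iUnion.mp hx
    exact mem_iUnion.mpr ⟨n, subset_closure ⟨x, hn, rfl⟩⟩
  obtain ⟨h1, h2⟩ := compact_and_cont L hL hLH hd hSL hc hK
  exact ⟨h1, eberlein L hL hd hSL hc h1 h2⟩

end Pool.Agent.Y447.CC
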