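import Pool.Agent.Y267.RS.Stm

set_option autoImplicit false

/-!
# Job RS-K1: the double of the holed torus is a branched double cover of the torus
-/

namespace Pool.Agent.Y447.RSK1

open Pool.Agent.Y267.RS Set Filter Topology

noncomputable section

/-! ## real algebra -/

theorem C_bd {C s : ℝ} (hC : C ^ 2 + s ^ 2 = 1) : -1 ≤ C ∧ C ≤ 1 := by
  constructor <;> nlinarith [sq_nonneg s, sq_nonneg C]

theorem den_pos {e C s h : ℝ} (he : -2 < e) (hC : C ^ 2 + s ^ 2 = 1)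
    (hh : h ^ 2 = e + 1 - C) : 0 < (1 + C) + h ^ 2 * (1 - C) := by
  obtain ⟨h1, h2⟩ := C_bd hC
  rcases eq_or_lt_of_le h1 with h3 | h3
  · rw [← h3] at hh ⊢
    nlinarith
  · have := mul_nonneg (sq_nonneg h) (by linarith : 0 ≤ 1 - C)
    linarith

theorem unit_alg {C s h : ℝ} (hC : C ^ 2 + s ^ 2 = 1) :
    ((1 + C) - h ^ 2 * (1 - C)) ^ 2 + (2 * h * s) ^ 2 = ((1 + C) + h ^ 2 * (1 - C)) ^ 2 := by
  have h1 : s ^ 2 = 1 - C ^ 2 := by linarith
  have h2 : (2 * h * s) ^ 2 = 4 * h ^ 2 * s ^ 2 := by ring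
  rw [h2, h1]
  ring

theorem H_lt_false {e c H H' : ℝ} (hc1 : -1 ≤ c) (hc2 : c ≤ 1)
    (h0 : 0 ≤ H) (h1 : e ≤ H) (hlt : H < H')
    (E : (1 + c) * (H * (H - e)) = (1 - c) * (e + 2 - H))
    (E' : (1 + c) * (H' * (H' - e)) = (1 - c) * (e + 2 - H')) : False := by
  have k1 : (H' - H) * ((1 + c) * (H' + H - e) + (1 - c)) = 0 := by nlinarith
  have k2 : (1 + c) * (H' + H - e) + (1 - c) = 0 := by
    rcases mul_eq_zero.1 k1 with h | h
    · linarith
    · exact h
  have k3 : 0 < H' + H - e := by linarith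
  have k4 : 0 ≤ (1 + c) * (H' + H - e) := mul_nonneg (by linarith) k3.le
  have k5 : c = 1 := by linarith
  subst k5
  nlinarith

theorem H_unique {e c H H' : ℝ} (hc1 : -1 ≤ c) (hc2 : c ≤ 1)
    (h0 : 0 ≤ H) (h1 : e ≤ H) (h0' : 0 ≤ H') (h1' : e ≤ H')
    (E : (1 + c) * (H * (H - e)) = (1 - c) * (e + 2 - H))
    (E' : (1 + c) * (H' * (H' - e)) = (1 - c) * (e + 2 - H')) : H = H' := by
  rcases lt_trichotomy H H' with h | h | h
  · exact (H_lt_false hc1 hc2 h0 h1 h E E').elim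
  · exact h
  · exact (H_lt_false hc1 hc2 h0' h1' h E' E).elim

theorem H_exists {e c : ℝ} (he : -2 < e) (hc1 : -1 ≤ c) (hc2 : c ≤ 1) :
    ∃ H : ℝ, 0 ≤ H ∧ e ≤ H ∧ H ≤ e + 2 ∧
      (1 + c) * (H * (H - e)) = (1 - c) * (e + 2 - H) := by
  have hcont : ContinuousOn (fun H : ℝ => (1 + c) * (H * (H - e)) - (1 - c) * (e + 2 - H))
      (Icc (max 0 e) (e + 2)) := by fun_prop
  have hle : max 0 e ≤ e + 2 := max_le (by linarith) (by linarith)
  have h1 : (fun H : ℝ => (1 + c) * (H * (H - e)) - (1 - c) * (e + 2 - H)) (max 0 e) ≤ 0 := by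
    have a1 : max 0 e * (max 0 e - e) = 0 := by
      rcases max_choice 0 e with h | h <;> rw [h] <;> ring
    have a2 : 0 ≤ (1 - c) * (e + 2 - max 0 e) := mul_nonneg (by linarith) (by linarith)
    simp only [a1]
    linarith
  have h2 : 0 ≤ (fun H : ℝ => (1 + c) * (H * (H - e)) - (1 - c) * (e + 2 - H)) (e + 2) := by
    have a2 : 0 ≤ (1 + c) * ((e + 2) * (e + 2 - e)) := by
      apply mul_nonneg (by linarith)
      nlinarith
    simp only
    linarith
  obtain ⟨H, hH, hHe⟩ := intermediate_value_Icc hle hcont ⟨h1, h2⟩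
  refine ⟨H, (le_max_left _ _).trans hH.1, (le_max_right _ _).trans hH.1, hH.2, ?_⟩
  simp only at hHe
  linarith

/-! ## the maps -/

/-- the homeomorphism of the two circles -/
def hc : T1 ≃ₜ Circle := AddCircle.homeomorphCircle one_ne_zero

theorem hc_coe (y : ℝ) : hc (y : T1) = Circle.exp (2 * Real.pi * y) := by
  rw [hc, AddCircle.homeomorphCircle_apply, AddCircle.toCircle_apply_mk, div_one]

theorem hc_re (y : ℝ) : ((hc (y : T1) : Circle) : ℂ).re = Real.cos (2 * Real.pi * y) := by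
  rw [hc_coe, Circle.coe_exp, Complex.exp_ofReal_mul_I_re]

theorem hc_im (y : ℝ) : ((hc (y : T1) : Circle) : ℂ).im = Real.sin (2 * Real.pi * y) := by
  rw [hc_coe, Circle.coe_exp, Complex.exp_ofReal_mul_I_im]

theorem circ_sq (z : Circle) : (z : ℂ).re ^ 2 + (z : ℂ).im ^ 2 = 1 := by
  have h := Circle.normSq_coe z
  rw [Complex.normSq_apply] at h
  linarith

/-- the number `e` of a first coordinate -/
def ee (z : Circle) : ℝ := Real.cos (Real.pi * be) - (z : ℂ).re

theorem cos_be (h6 : A6Stm) : 0 < Real.cos (Real.pi * be) := by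
  have h := h6.1
  apply Real.cos_pos_of_mem_Ioo
  constructor
  · nlinarith [Real.pi_pos]
  · nlinarith [Real.pi_pos]

theorem ee_gt (h6 : A6Stm) (z : Circle) : -2 < ee z := by
  have h := cos_be h6
  have h2 := (C_bd (circ_sq z)).2
  unfold ee
  linarith

/-- denominator -/
def den (p : Circle × Circle × ℝ) : ℝ :=
  (1 + (p.2.1 : ℂ).re) + p.2.2 ^ 2 * (1 - (p.2.1 : ℂ).re)

theorem mem_iff (p : Circle × Circle × ℝ) :
    p ∈ Mc ↔ p.2.2 ^ 2 = ee p.1 + 1 - (p.2.1 : ℂ).re := by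
  unfold Mc ee
  simp only [mem_ofPred_eq]
  constructor <;> intro h <;> linarith

theorem den_p (h6 : A6Stm) {p : Circle × Circle × ℝ} (hp : p ∈ Mc) : 0 < den p :=
  den_pos (ee_gt h6 p.1) (circ_sq p.2.1) ((mem_iff p).1 hp)

/-- the second coordinate, as a complex number -/
def zf (p : Circle × Circle × ℝ) : ℂ :=
  ⟨((1 + (p.2.1 : ℂ).re) - p.2.2 ^ 2 * (1 - (p.2.1 : ℂ).re)) / den p,
    2 * p.2.2 * (p.2.1 : ℂ).im / den p⟩

theorem zf_norm (h6 : A6Stm) {p : Circle × Circle × ℝ} (hp : p ∈ Mc) : ‖zf p‖ = 1 := by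
  have hd := den_p h6 hp
  have h1 : Complex.normSq (zf p) = 1 := by
    rw [Complex.normSq_apply]
    unfold zf
    simp only
    have := unit_alg (h := p.2.2) (circ_sq p.2.1)
    rw [div_mul_div_comm, div_mul_div_comm, ← add_div, div_eq_one_iff_eq (by positivity)]
    unfold den
    nlinarith
  rw [Complex.normSq_eq_norm_sq] at h1
  nlinarith [norm_nonneg (zf p)]

/-- the second coordinate in the circle -/
def zc (h6 : A6Stm) (q : Mc) : Circle := ⟨zf q.1, mem_sphere_zero_iff_norm.2 (zf_norm h6 q.2)⟩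

theorem zc_coe (h6 : A6Stm) (q : Mc) : ((zc h6 q : Circle) : ℂ) = zf q.1 := rfl

theorem cont_coe : Continuous (fun z : Circle => (z : ℂ)) := continuous_subtype_val

theorem cont_re : Continuous (fun q : Mc => (q.1.2.1 : ℂ).re) :=
  Complex.continuous_re.comp (cont_coe.comp
    (continuous_fst.comp (continuous_snd.comp continuous_subtype_val)))

theorem cont_im : Continuous (fun q : Mc => (q.1.2.1 : ℂ).im) :=
  Complex.continuous_im.comp (cont_coe.comp
    (continuous_fst.comp (continuous_snd.comp continuous_subtype_val)))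

theorem cont_h : Continuous (fun q : Mc => q.1.2.2) :=
  continuous_snd.comp (continuous_snd.comp continuous_subtype_val)

theorem cont_zf (h6 : A6Stm) : Continuous (fun q : Mc => zf q.1) := by
  have hd : Continuous (fun q : Mc => den q.1) := by
    unfold den
    exact (continuous_const.add cont_re).add ((cont_h.pow 2).mul (continuous_const.sub cont_re))
  have h1 : Continuous (fun q : Mc => ((1 + (q.1.2.1 : ℂ).re)
      - q.1.2.2 ^ 2 * (1 - (q.1.2.1 : ℂ).re)) / den q.1) :=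
    ((continuous_const.add cont_re).sub ((cont_h.pow 2).mul
      (continuous_const.sub cont_re))).div hd (fun q => (den_p h6 q.2).ne')
  have h2 : Continuous (fun q : Mc => 2 * q.1.2.2 * (q.1.2.1 : ℂ).im / den q.1) :=
    ((continuous_const.mul cont_h).mul cont_im).div hd (fun q => (den_p h6 q.2).ne')
  have h3 : (fun q : Mc => zf q.1) = fun q : Mc => Complex.equivRealProdCLM.symm
      (((1 + (q.1.2.1 : ℂ).re) - q.1.2.2 ^ 2 * (1 - (q.1.2.1 : ℂ).re)) / den q.1,
        2 * q.1.2.2 * (q.1.2.1 : ℂ).im / den q.1) := by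
    funext q
    apply Complex.ext <;> simp [zf]
  rw [h3]
  exact Complex.equivRealProdCLM.symm.continuous.comp (h1.prodMk h2)

theorem cont_zc (h6 : A6Stm) : Continuous (zc h6) :=
  Continuous.subtype_mk (cont_zf h6) _

/-- the projection -/
def P (h6 : A6Stm) (q : Mc) : T1 × T1 :=
  (hc.symm q.1.1 + ((be / 2 : ℝ) : T1), hc.symm (zc h6 q))

theorem cont_P (h6 : A6Stm) : Continuous (P h6) := by
  apply Continuous.prodMk
  · exact (hc.symm.continuous.comp (continuous_fst.comp continuous_subtype_val)).add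
      continuous_const
  · exact hc.symm.continuous.comp (cont_zc h6)

/-- the fibre coordinate -/
def w (q : Mc) : ℂ := ⟨q.1.2.2, (q.1.2.1 : ℂ).im⟩

theorem cont_w : Continuous w := by
  have h3 : w = fun q : Mc => Complex.equivRealProdCLM.symm
      (q.1.2.2, (q.1.2.1 : ℂ).im) := by
    funext q
    apply Complex.ext <;> simp [w]
  rw [h3]
  exact Complex.equivRealProdCLM.symm.continuous.comp (cont_h.prodMk cont_im)

theorem w_sq_re (q : Mc) : (w q ^ 2).re = q.1.2.2 ^ 2 - (q.1.2.1 : ℂ).im ^ 2 := by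
  rw [pow_two, Complex.mul_re]
  simp only [w]
  ring

theorem w_sq_im (q : Mc) : (w q ^ 2).im = 2 * q.1.2.2 * (q.1.2.1 : ℂ).im := by
  rw [pow_two, Complex.mul_im]
  simp only [w]
  ring

theorem P_fst (h6 : A6Stm) (q : Mc) (x : T1) (h : (P h6 q).1 = x) :
    q.1.1 = hc (x - ((be / 2 : ℝ) : T1)) := by
  rw [← h]
  simp [P]

theorem P_snd (h6 : A6Stm) (q : Mc) (t : T1) (h : (P h6 q).2 = t) : zf q.1 = (hc t : ℂ) := by
  rw [← h]
  simp [P, zc_coe]

/-- `c den = (1+C) - H (1-C)` -/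
theorem re_eq (h6 : A6Stm) (q : Mc) (t : T1) (h : (P h6 q).2 = t) :
    ((hc t : Circle) : ℂ).re * den q.1 =
      (1 + (q.1.2.1 : ℂ).re) - q.1.2.2 ^ 2 * (1 - (q.1.2.1 : ℂ).re) := by
  rw [← P_snd h6 q t h]
  exact div_mul_cancel₀ _ (den_p h6 q.2).ne'

theorem im_eq (h6 : A6Stm) (q : Mc) (t : T1) (h : (P h6 q).2 = t) :
    ((hc t : Circle) : ℂ).im * den q.1 = 2 * q.1.2.2 * (q.1.2.1 : ℂ).im := by
  rw [← P_snd h6 q t h]
  exact div_mul_cancel₀ _ (den_p h6 q.2).ne'

theorem H_eqn (h6 : A6Stm) (q : Mc) (t : T1) (h : (P h6 q).2 = t) :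
    (1 + ((hc t : Circle) : ℂ).re) * (q.1.2.2 ^ 2 * (q.1.2.2 ^ 2 - ee q.1.1)) =
      (1 - ((hc t : Circle) : ℂ).re) * (ee q.1.1 + 2 - q.1.2.2 ^ 2) := by
  have h1 := re_eq h6 q t h
  have h2 := (mem_iff q.1).1 q.2
  have h3 : (q.1.2.1 : ℂ).re = ee q.1.1 + 1 - q.1.2.2 ^ 2 := by linarith
  unfold den at h1
  rw [h3] at h1
  ring_nf at h1 ⊢
  linarith

theorem H_bd (q : Mc) : 0 ≤ q.1.2.2 ^ 2 ∧ ee q.1.1 ≤ q.1.2.2 ^ 2 ∧ q.1.2.2 ^ 2 ≤ ee q.1.1 + 2 := by
  have h2 := (mem_iff q.1).1 q.2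
  obtain ⟨h3, h4⟩ := C_bd (circ_sq q.1.2.1)
  exact ⟨sq_nonneg _, by linarith, by linarith⟩

theorem fib (h6 : A6Stm) (q q' : Mc) (h : P h6 q = P h6 q') : w q ^ 2 = w q' ^ 2 := by
  have hx : q.1.1 = q'.1.1 := by
    rw [P_fst h6 q _ rfl, P_fst h6 q' _ rfl, h]
  obtain ⟨c1, c2⟩ := C_bd (circ_sq (hc (P h6 q).2))
  have hH : q.1.2.2 ^ 2 = q'.1.2.2 ^ 2 := by
    have E := H_eqn h6 q _ rfl
    have E' := H_eqn h6 q' _ (congrArg Prod.snd h.symm)
    rw [← hx] at E'
    have b := H_bd q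
    have b' := H_bd q'
    rw [← hx] at b'
    exact H_unique c1 c2 b.1 b.2.1 b'.1 b'.2.1 E E'
  have hC : (q.1.2.1 : ℂ).re = (q'.1.2.1 : ℂ).re := by
    have a := (mem_iff q.1).1 q.2
    have a' := (mem_iff q'.1).1 q'.2
    rw [← hx] at a'
    linarith
  have hs : (q.1.2.1 : ℂ).im ^ 2 = (q'.1.2.1 : ℂ).im ^ 2 := by
    have a := circ_sq q.1.2.1
    have a' := circ_sq q'.1.2.1
    rw [← hC] at a'
    linarith
  have hden : den q.1 = den q'.1 := by
    unfold den
    rw [hC, hH]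
  apply Complex.ext
  · rw [w_sq_re, w_sq_re, hH, hs]
  · rw [w_sq_im, w_sq_im]
    have a := im_eq h6 q _ rfl
    have a' := im_eq h6 q' _ (congrArg Prod.snd h.symm)
    rw [← a, ← a', hden]

/-- the point with given coordinates -/
theorem surj_aux (h6 : A6Stm) (z1 : Circle) (Z : Circle) :
    ∃ q : Mc, q.1.1 = z1 ∧ zc h6 q = Z := by
  obtain ⟨c1, c2⟩ := C_bd (circ_sq Z)
  obtain ⟨H, H0, H1, H2, HE⟩ := H_exists (ee_gt h6 z1) c1 c2
  set e := ee z1 with he
  set C := e + 1 - H with hC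
  have hC1 : 0 ≤ 1 - C ^ 2 := by nlinarith
  -- the sign
  obtain ⟨σ, hσ, hσs⟩ : ∃ σ : ℝ, σ ^ 2 = 1 ∧ 0 ≤ σ * (Z : ℂ).im := by
    rcases le_total 0 (Z : ℂ).im with h | h
    · exact ⟨1, by norm_num, by simpa using h⟩
    · exact ⟨-1, by norm_num, by linarith⟩
  set s := σ * √(1 - C ^ 2) with hs
  have hs2 : s ^ 2 = 1 - C ^ 2 := by
    rw [hs, mul_pow, hσ, Real.sq_sqrt hC1, one_mul]
  have hn : ‖(⟨C, s⟩ : ℂ)‖ = 1 := by
    have h1 : Complex.normSq (⟨C, s⟩ : ℂ) = 1 := by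
      rw [Complex.normSq_apply]
      simp only
      nlinarith
    rw [Complex.normSq_eq_norm_sq] at h1
    nlinarith [norm_nonneg (⟨C, s⟩ : ℂ)]
  let z2 : Circle := ⟨⟨C, s⟩, mem_sphere_zero_iff_norm.2 hn⟩
  have hre : (z2 : ℂ).re = C := rfl
  have him : (z2 : ℂ).im = s := rfl
  have hh2 : (√H) ^ 2 = H := Real.sq_sqrt H0
  have hmem : (z1, z2, √H) ∈ Mc := by
    rw [mem_iff]
    simp only [hre, hh2]
    rw [hC]
    ring
  let q : Mc := ⟨(z1, z2, √H), hmem⟩
  have hd := den_p h6 hmem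
  have hden : den (z1, z2, √H) = (1 + C) + H * (1 - C) := by
    unfold den
    simp only [hre, hh2]
  refine ⟨q, rfl, ?_⟩
  have hre' : (zf q.1).re = (Z : ℂ).re := by
    show ((1 + (z2 : ℂ).re) - (√H) ^ 2 * (1 - (z2 : ℂ).re)) / den (z1, z2, √H) = _
    rw [hre, hh2, div_eq_iff hd.ne', hden]
    have e1 : 1 - C = H - e := by rw [hC]; ring
    have e2 : 1 + C = e + 2 - H := by rw [hC]; ring
    rw [e1, e2]
    linarith
  have him' : (zf q.1).im = (Z : ℂ).im := by
    have hsq : (zf q.1).im ^ 2 = (Z : ℂ).im ^ 2 := by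
      have a := circ_sq (zc h6 q)
      rw [zc_coe, hre'] at a
      have a' := circ_sq Z
      linarith
    have hpos : 0 ≤ σ * (zf q.1).im := by
      show 0 ≤ σ * (2 * √H * (z2 : ℂ).im / den (z1, z2, √H))
      rw [him, hs]
      have : σ * (2 * √H * (σ * √(1 - C ^ 2)) / den (z1, z2, √H)) =
          σ ^ 2 * (2 * √H * √(1 - C ^ 2) / den (z1, z2, √H)) := by ring
      rw [this, hσ, one_mul]
      positivity
    have h1 : (σ * (zf q.1).im) ^ 2 = (σ * (Z : ℂ).im) ^ 2 := by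
      rw [mul_pow, mul_pow, hsq]
    have h2 : σ * (zf q.1).im = σ * (Z : ℂ).im := by
      rcases sq_eq_sq_iff_eq_or_eq_neg.1 h1 with h | h
      · exact h
      · linarith
    have h3 : σ ≠ 0 := by
      rintro rfl
      norm_num at hσ
    exact mul_left_cancel₀ h3 h2
  apply Circle.ext
  rw [zc_coe]
  exact Complex.ext hre' him'

theorem P_surj (h6 : A6Stm) : Function.Surjective (P h6) := by
  rintro ⟨x, t⟩
  obtain ⟨q, h1, h2⟩ := surj_aux h6 (hc (x - ((be / 2 : ℝ) : T1))) (hc t)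
  refine ⟨q, ?_⟩
  unfold P
  rw [h1, h2]
  simp

theorem Mc_compact : IsCompact Mc := by
  have hcl : IsClosed Mc := by
    unfold Mc
    apply isClosed_eq
    · exact ((continuous_snd.comp continuous_snd).pow 2).add
        (Complex.continuous_re.comp (cont_coe.comp continuous_fst)) |>.add
        (Complex.continuous_re.comp (cont_coe.comp (continuous_fst.comp continuous_snd)))
    · exact continuous_const
  have hsub : Mc ⊆ (univ : Set Circle) ×ˢ ((univ : Set Circle) ×ˢ Icc (-2 : ℝ) 2) := by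
    intro p hp
    refine ⟨mem_univ _, mem_univ _, ?_⟩
    have h1 := (mem_iff p).1 hp
    have h2 := C_bd (circ_sq p.1)
    have h3 := C_bd (circ_sq p.2.1)
    have h4 := Real.cos_le_one (Real.pi * be)
    unfold ee at h1
    have h5 : p.2.2 ^ 2 ≤ 2 ^ 2 := by linarith
    exact abs_le.1 (abs_le_of_sq_le_sq h5 (by norm_num))
  exact (isCompact_univ.prod (isCompact_univ.prod isCompact_Icc)).of_isClosed_subset hcl hsub

theorem P_quot (h6 : A6Stm) : IsQuotientMap (P h6) := by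
  have : CompactSpace Mc := isCompact_iff_compactSpace.1 Mc_compact
  exact ((cont_P h6).isClosedMap).isQuotientMap (cont_P h6) (P_surj h6)

/-- the function of the cover -/
def F0 (h6 : A6Stm) (z : T1 × T1) : ℂ := w (Function.surjInv (P_surj h6) z) ^ 2

theorem F0_P (h6 : A6Stm) (q : Mc) : F0 h6 (P h6 q) = w q ^ 2 :=
  fib h6 _ _ (Function.surjInv_eq (P_surj h6) (P h6 q))

theorem cont_F0 (h6 : A6Stm) : Continuous (F0 h6) := by
  rw [(P_quot h6).continuous_iff]
  have : F0 h6 ∘ P h6 = fun q => w q ^ 2 := by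
    funext q
    exact F0_P h6 q
  rw [this]
  exact cont_w.pow 2

/-- the involution -/
def iota (q : Mc) : Mc := ⟨(q.1.1, q.1.2.1⁻¹, -q.1.2.2), by
  rw [mem_iff]
  have h := (mem_iff q.1).1 q.2
  simp only [Circle.coe_inv_eq_conj, Complex.conj_re, neg_sq]
  exact h⟩

theorem P_iota (h6 : A6Stm) (q : Mc) : P h6 (iota q) = P h6 q := by
  have h1 : zc h6 (iota q) = zc h6 q := by
    apply Circle.ext
    rw [zc_coe, zc_coe]
    unfold zf den iota
    simp only [Circle.coe_inv_eq_conj, Complex.conj_re, Complex.conj_im, neg_sq]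
    apply Complex.ext
    · rfl
    · show 2 * -q.1.2.2 * -(q.1.2.1 : ℂ).im / _ = 2 * q.1.2.2 * (q.1.2.1 : ℂ).im / _
      ring
  unfold P
  rw [h1]
  rfl

theorem w_iota (q : Mc) : w (iota q) = - w q := by
  unfold w iota
  simp only [Circle.coe_inv_eq_conj, Complex.conj_im]
  apply Complex.ext <;> simp

theorem inj (h6 : A6Stm) (q q' : Mc) (h : P h6 q = P h6 q') (hw : w q = w q') : q = q' := by
  have hx : q.1.1 = q'.1.1 := by
    rw [P_fst h6 q _ rfl, P_fst h6 q' _ rfl, h]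
  have hh : q.1.2.2 = q'.1.2.2 := congrArg Complex.re hw
  have hs : (q.1.2.1 : ℂ).im = (q'.1.2.1 : ℂ).im := by
    have h0 : (w q).im = (w q').im := by rw [hw]
    exact h0
  have hC : (q.1.2.1 : ℂ).re = (q'.1.2.1 : ℂ).re := by
    have a := (mem_iff q.1).1 q.2
    have a' := (mem_iff q'.1).1 q'.2
    rw [← hx, ← hh] at a'
    linarith
  apply Subtype.ext
  apply Prod.ext hx
  apply Prod.ext _ hh
  exact Circle.ext (Complex.ext hC hs)

/-- the homeomorphism -/
def theHomeo (h6 : A6Stm) : Mc ≃ₜ SF (F0 h6) := by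
  haveI : CompactSpace Mc := isCompact_iff_compactSpace.1 Mc_compact
  have hmem : ∀ q : Mc, (P h6 q, w q) ∈ SF (F0 h6) := fun q => (F0_P h6 q).symm
  let f : Mc → SF (F0 h6) := fun q => ⟨(P h6 q, w q), hmem q⟩
  have hf : Continuous f := ((cont_P h6).prodMk cont_w).subtype_mk hmem
  have hinj : Function.Injective f := by
    intro q q' h
    have h1 := congrArg Subtype.val h
    exact inj h6 q q' (congrArg Prod.fst h1) (congrArg Prod.snd h1)
  have hsurj : Function.Surjective f := by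
    rintro ⟨⟨z, v⟩, hv⟩
    obtain ⟨q, hq⟩ := P_surj h6 z
    have hv' : v ^ 2 = w q ^ 2 := by
      rw [← F0_P, hq]
      exact hv
    rcases sq_eq_sq_iff_eq_or_eq_neg.1 hv' with h | h
    · exact ⟨q, Subtype.ext (Prod.ext hq h.symm)⟩
    · refine ⟨iota q, Subtype.ext (Prod.ext ?_ ?_)⟩
      · exact (P_iota h6 q).trans hq
      · exact (w_iota q).trans h.symm
  exact (Continuous.homeoOfEquivCompactToT2 (f := Equiv.ofBijective f ⟨hinj, hsurj⟩) hf)

/-! ## the properties of `F0` -/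

theorem F0_eq (h6 : A6Stm) (x t : T1) : ∃ q : Mc, P h6 q = (x, t) ∧
    (F0 h6 (x, t)).re = q.1.2.2 ^ 2 - (q.1.2.1 : ℂ).im ^ 2 ∧
    (F0 h6 (x, t)).im = 2 * q.1.2.2 * (q.1.2.1 : ℂ).im := by
  obtain ⟨q, hq⟩ := P_surj h6 (x, t)
  refine ⟨q, hq, ?_, ?_⟩
  · rw [← hq, F0_P, w_sq_re]
  · rw [← hq, F0_P, w_sq_im]

theorem F0_im (h6 : A6Stm) (x t : T1) : ∃ d : ℝ, 0 < d ∧
    (F0 h6 (x, t)).im = ((hc t : Circle) : ℂ).im * d := by
  obtain ⟨q, hq, -, h2⟩ := F0_eq h6 x t
  refine ⟨den q.1, den_p h6 q.2, ?_⟩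
  rw [h2, im_eq h6 q t (congrArg Prod.snd hq)]

/-- value on the top line -/
theorem F0_top (h6 : A6Stm) (x : T1) : 0 < (F0 h6 (x, ((1 / 2 : ℝ) : T1))).re := by
  obtain ⟨q, hq, h1, -⟩ := F0_eq h6 x ((1 / 2 : ℝ) : T1)
  have h3 := re_eq h6 q _ (congrArg Prod.snd hq)
  have h4 : ((hc ((1 / 2 : ℝ) : T1) : Circle) : ℂ).re = -1 := by
    rw [hc_re]
    have : 2 * Real.pi * (1 / 2) = Real.pi := by ring
    rw [this, Real.cos_pi]
  simp only at h3
  rw [h4] at h3
  unfold den at h3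
  have h5 : (q.1.2.1 : ℂ).re = -1 := by linarith
  have h6' := circ_sq q.1.2.1
  rw [h5] at h6'
  have h7 : (q.1.2.1 : ℂ).im ^ 2 = 0 := by linarith
  have h8 := (mem_iff q.1).1 q.2
  have h9 := ee_gt h6 q.1.1
  rw [h1, h7, h8, h5]
  linarith

/-- the value of `e` at the seam point `y` -/
theorem seam_e (h6 : A6Stm) (y : ℝ) (q : Mc) (t : T1) (hq : P h6 q = ((y : T1), t)) :
    ee q.1.1 = Real.cos (Real.pi * be) - Real.cos (2 * Real.pi * y - Real.pi * be) := by
  have h := P_fst h6 q _ (congrArg Prod.fst hq)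
  have h2 : ((y : T1)) - ((be / 2 : ℝ) : T1) = ((y - be / 2 : ℝ) : T1) := by
    simp
  unfold ee
  rw [h]
  simp only
  rw [h2, hc_re]
  congr 2
  ring

/-- value on the seam -/
theorem F0_seam (h6 : A6Stm) (y : ℝ) : ∃ e : ℝ,
    e = Real.cos (Real.pi * be) - Real.cos (2 * Real.pi * y - Real.pi * be) ∧ -2 < e ∧
    ((0 ≤ e ∧ (F0 h6 ((y : T1), 0)).re = e) ∨ (e ≤ 0 ∧ (F0 h6 ((y : T1), 0)).re = e * (e + 2))) := by
  obtain ⟨q, hq, h1, -⟩ := F0_eq h6 (y : T1) 0
  refine ⟨ee q.1.1, seam_e h6 y q 0 hq, ee_gt h6 _, ?_⟩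
  have h3 := re_eq h6 q _ (congrArg Prod.snd hq)
  have h4 : ((hc (0 : T1) : Circle) : ℂ).re = 1 := by
    have := hc_re 0
    rw [AddCircle.coe_zero] at this
    rw [this]
    simp
  simp only at h3
  rw [h4, one_mul] at h3
  unfold den at h3
  have h5 : q.1.2.2 ^ 2 * (1 - (q.1.2.1 : ℂ).re) = 0 := by linarith
  have h8 := (mem_iff q.1).1 q.2
  have hb := H_bd q
  have hc2 := circ_sq q.1.2.1
  rcases mul_eq_zero.1 h5 with h | h
  · right
    have hC : (q.1.2.1 : ℂ).re = ee q.1.1 + 1 := by linarith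
    refine ⟨by linarith, ?_⟩
    rw [h1, h]
    rw [hC] at hc2
    nlinarith
  · left
    have hC : (q.1.2.1 : ℂ).re = 1 := by linarith
    rw [hC] at hc2 h8
    refine ⟨by nlinarith, ?_⟩
    rw [h1]
    nlinarith

theorem theHF (h6 : A6Stm) : HF (F0 h6) := by
  have hpi := Real.pi_pos
  have hbe := h6.1
  have hb0 : 0 < Real.pi * be := mul_pos hpi hbe.1
  have hb1 : Real.pi * be < Real.pi := by nlinarith [hbe.2]
  refine ⟨cont_F0 h6, ?_, ?_, ?_, F0_top h6, ?_, ?_, ?_, ?_, ?_⟩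
  · intro x u hu hu2
    obtain ⟨d, hd, h⟩ := F0_im h6 x (u : T1)
    rw [h, hc_im]
    apply mul_pos _ hd
    apply Real.sin_pos_of_pos_of_lt_pi <;> nlinarith
  · intro x u hu hu2
    obtain ⟨d, hd, h⟩ := F0_im h6 x ((-u : ℝ) : T1)
    rw [h, hc_im]
    apply mul_neg_of_neg_of_pos _ hd
    have : 2 * Real.pi * -u = -(2 * Real.pi * u) := by ring
    rw [this, Real.sin_neg, neg_lt_zero]
    apply Real.sin_pos_of_pos_of_lt_pi <;> nlinarith
  · intro x
    obtain ⟨d, hd, h⟩ := F0_im h6 x ((1 / 2 : ℝ) : T1)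
    rw [h, hc_im]
    have : 2 * Real.pi * (1 / 2) = Real.pi := by ring
    rw [this, Real.sin_pi, zero_mul]
  · intro x
    obtain ⟨d, hd, h⟩ := F0_im h6 x 0
    rw [h, ← AddCircle.coe_zero, hc_im]
    simp
  · intro y hy hy2
    obtain ⟨e, he, he2, h⟩ := F0_seam h6 y
    have hneg : e < 0 := by
      rw [he, sub_neg, ← Real.cos_abs (2 * Real.pi * y - Real.pi * be)]
      apply Real.cos_lt_cos_of_nonneg_of_le_pi (abs_nonneg _) hb1.le
      rw [abs_lt]
      constructor <;> nlinarith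
    rcases h with h | h
    · linarith [h.1]
    · rw [h.2]
      exact mul_neg_of_neg_of_pos hneg (by linarith)
  · -- value at 0
    have hz : ∀ y : ℝ, Real.cos (Real.pi * be) - Real.cos (2 * Real.pi * y - Real.pi * be) = 0 →
        F0 h6 ((y : T1), 0) = 0 := by
      intro y hy
      obtain ⟨e, he, he2, h⟩ := F0_seam h6 y
      rw [hy] at he
      obtain ⟨d, hd, h'⟩ := F0_im h6 (y : T1) 0
      apply Complex.ext
      · rcases h with h | h
        · rw [h.2, he]; rfl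
        · rw [h.2, he]; simp
      · rw [h', ← AddCircle.coe_zero, hc_im]
        simp
    have := hz 0 (by rw [mul_zero, zero_sub, Real.cos_neg, sub_self])
    rwa [AddCircle.coe_zero] at this
  · have hz : ∀ y : ℝ, Real.cos (Real.pi * be) - Real.cos (2 * Real.pi * y - Real.pi * be) = 0 →
        F0 h6 ((y : T1), 0) = 0 := by
      intro y hy
      obtain ⟨e, he, he2, h⟩ := F0_seam h6 y
      rw [hy] at he
      obtain ⟨d, hd, h'⟩ := F0_im h6 (y : T1) 0
      apply Complex.ext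
      · rcases h with h | h
        · rw [h.2, he]; rfl
        · rw [h.2, he]; simp
      · rw [h', ← AddCircle.coe_zero, hc_im]
        simp
    apply hz
    have : 2 * Real.pi * be - Real.pi * be = Real.pi * be := by ring
    rw [this, sub_self]
  · intro y hy hy2
    obtain ⟨e, he, he2, h⟩ := F0_seam h6 y
    have hpos : 0 < e := by
      rw [he, sub_pos]
      rcases le_total (2 * Real.pi * y - Real.pi * be) Real.pi with hle | hle
      · apply Real.cos_lt_cos_of_nonneg_of_le_pi hb0.le hle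
        nlinarith
      · have : Real.cos (2 * Real.pi * y - Real.pi * be) =
            Real.cos (2 * Real.pi - (2 * Real.pi * y - Real.pi * be)) := by
          rw [Real.cos_two_pi_sub]
        rw [this]
        apply Real.cos_lt_cos_of_nonneg_of_le_pi hb0.le (by linarith)
        nlinarith
    rcases h with h | h
    · rw [h.2]
      exact hpos
    · linarith [h.1]

/-- **Job RS-K1.** -/
theorem k1 (h6 : A6Stm) : K1Stm := ⟨F0 h6, theHF h6, ⟨theHomeo h6⟩⟩

end

end Pool.Agent.Y447.RSK1
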