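import Pool.Agent.Results.MP_b13462_lc.Undecidable

/-!
# One finite presentation of Lie rings, and recursive inseparability

There is a finite list `P` of equations such that no algorithm separates the terms `t` which are
zero in the finitely presented Lie ring `⟨x₀, x₁, … | P⟩` from the terms which are not zero in some
finite quotient of it with `2 x = 0`. Hence no class of Lie rings which contains all finite Lie
rings with `2 x = 0` has decidable quasi-identities. Stronger form of the starting file
`Undecidable`, whose construction is used.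
-/

set_option autoImplicit false
set_option linter.all false

namespace Pool.Agent.Results.MP_b13462_lc.Inseparable

open Pool.Agent.H662R2.SM
open Pool.Agent.Results.MP_b13462_lc.Undecidable

theorem two_R {K Γ Q : Type} (N : ℕ) (x : R K Γ Q N) : x + x = 0 := by
  have h : ∀ y : Module.End (ZMod 2) (W K Γ Q N), y + y = 0 := by
    intro y
    refine LinearMap.ext fun w => ?_
    rw [LinearMap.add_apply, ← two_smul (ZMod 2) (y w)]
    have h2 : (2 : ZMod 2) = 0 := rfl
    rw [h2, zero_smul]
    rfl
  exact h x

theorem reject_two {K Γ Q : Type} [DecidableEq K] [Finite K] [Finite Γ] [Finite Q] (M : Mach K Γ Q)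
    (acc : Q → Γ → Prop) (hacc : ∀ q o, acc q o → M.δ q o = none) (e : Gen K Γ Q → ℕ)
    (he : Function.Injective e) (ks : List K) (hks : ks.Nodup) (hall : ∀ k, k ∈ ks) (q₀ : Q)
    (S₀ : K → List Γ) (r : Q × (K → List Γ)) (hr : M.Reaches (q₀, S₀) r) (hh : M.step r = none)
    (hna : ∀ o z, r.2 (M.κ r.1) = o :: z → ¬ acc r.1 o) :
    ∃ (L : Type) (_ : LieRing L) (_ : Finite L) (v : ℕ → L), (∀ x : L, x + x = 0) ∧
      (∀ p, IsPrem M acc e p → p.1.eval v = p.2.eval v) ∧
        (cfgTerm ks e q₀ S₀).eval v ≠ 0 := by
  classical
  obtain ⟨N, hN⟩ := orb_bound M (q₀, S₀) r hr hh []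
  let f : Q → V K Γ Q N := fun q =>
    ⟨fun U => if ∃ S h, Orb M q₀ S₀ (q, S, h) ∧ encode S h = U then 1 else 0, by
      rintro U ⟨s, hs⟩
      refine if_neg ?_
      rintro ⟨S, h, hO, rfl⟩
      exact absurd (hN _ hO s) (not_le.2 hs)⟩
  let ρ : Gen K Γ Q → R K Γ Q N := fun x =>
    match x with
    | .inl x => lift N (T N x)
    | .inr q => col N (f q)
  let v : ℕ → R K Γ Q N := Function.extend e ρ 0
  have hv : ∀ x, v (e x) = ρ x := fun x => he.extend_apply ρ 0 x
  have hv1 : ∀ x, v (e (.inl x)) = lift N (T N x) := fun x => hv _
  have hv2 : ∀ q, v (e (.inr q)) = col N (f q) := fun q => hv _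
  refine ⟨R K Γ Q N, inferInstance, inferInstance, v, two_R N, ?_, ?_⟩
  · rintro p (⟨s, t, a, b, hst, rfl⟩ | ⟨q, o, q', w, hδ, rfl⟩ | ⟨q, o, ha, rfl⟩)
    · simp only [Term.eval]
      rw [hv1, hv1]
      exact lift_lift N _ _ (T_comm N (s, a) (t, b) hst)
    · have h1 : (Term.br (.var (e (.inl (none, .inr (q, o))))) (.var (e (.inr q'))) : Term).eval v =
          col N (T N (none, .inr (q, o)) (f q')) := by
        simp only [Term.eval]
        rw [hv1, hv2, lift_col]
      have h2 := eval_chain_col N e v hv1 _ _ h1
        (w.reverse.map fun x => ((some (M.κ q), .inl x) : Option K × Let Γ Q))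
      simp only [List.map_map] at h2
      have h3 : (fun x => Term.var (e (Sum.inl x))) ∘
          (fun x => ((some (M.κ q), .inl x) : Option K × Let Γ Q)) =
          fun x => Term.var (e (.inl (some (M.κ q), .inl x))) := rfl
      rw [h3] at h2
      show (Term.br _ _).eval v = _
      rw [h2]
      simp only [Term.eval]
      rw [hv1, hv2, lift_col]
      congr 1
      apply Subtype.ext
      funext U
      rw [foldr_T, foldl_push_word]
      show (if ∃ S h, Orb M q₀ S₀ (q, S, h) ∧ encode S h = push U (some (M.κ q), .inl o)
          then (1 : ZMod 2) else 0) =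
        (if ∃ S h, Orb M q₀ S₀ (q', S, h) ∧ encode S h =
          push (Function.update U (some (M.κ q)) (w.map Sum.inl ++ U (some (M.κ q))))
            (none, .inr (q, o)) then (1 : ZMod 2) else 0)
      simp only [orb_key M q₀ S₀ hδ U]
    · simp only [Term.eval]
      rw [hv1, hv2, lift_col]
      have : T N (some (M.κ q), .inl o) (f q) = 0 := by
        apply Subtype.ext
        funext U
        show (if ∃ S h, Orb M q₀ S₀ (q, S, h) ∧ encode S h = push U (some (M.κ q), .inl o)
          then (1 : ZMod 2) else 0) = 0
        rw [if_neg]
        rintro ⟨S, h, hO, heq⟩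
        have e1 : (S (M.κ q)).map Sum.inl = Sum.inl o :: U (some (M.κ q)) := by
          have := congrFun heq (some (M.κ q))
          simpa [encode, push] using this
        rcases hS : S (M.κ q) with _ | ⟨o', z⟩
        · simp [hS] at e1
        · rw [hS, List.map_cons, List.cons.injEq] at e1
          have h1 : o' = o := Sum.inl_injective e1.1
          subst h1
          have h2 : M.step (q, S) = none := by
            simp [Mach.step, hS, hacc q o' ha]
          have h3 := halt_unique (orb_proj hO) hr h2 hh
          simp only at h3
          subst h3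
          exact hna o' z hS ha
      rw [this]
      exact col_zero N
  · intro h0
    have h1 := eval_chain_col N e v hv1 (.var (e (.inr q₀))) (f q₀)
      (by simp only [Term.eval]; exact hv2 q₀) (word ks S₀)
    have h2 : (cfgTerm ks e q₀ S₀).eval v =
        col N ((word ks S₀).foldr (fun x G => T N x G) (f q₀)) := h1
    rw [h2] at h0
    have h3 := col_inj N h0
    have h4 : ((word ks S₀).foldr (fun x G => T N x G) (f q₀)).1 (fun _ => []) = 0 := by
      rw [h3]; rfl
    rw [foldr_T, foldl_push_all ks hks] at h4
    have h5 : (f q₀).1 (fun s => match s with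
        | some k => if k ∈ ks then (S₀ k).map Sum.inl ++
            ((fun _ => []) : Option K → List (Let Γ Q)) (some k) else
            ((fun _ => []) : Option K → List (Let Γ Q)) (some k)
        | none => ((fun _ => []) : Option K → List (Let Γ Q)) none) = 1 := by
      show (if _ then (1 : ZMod 2) else 0) = 1
      rw [if_pos]
      refine ⟨S₀, [], Relation.ReflTransGen.refl, ?_⟩
      funext s
      cases s with
      | none => simp [encode]
      | some k => simp [encode, hall k]
    exact absurd (h5.symm.trans h4) (by decide)


/-- The quasi-identity `P → t = 0`. -/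
def qid (P : List (Term × Term)) (t : Term) : QuasiId := ⟨P, (t, .zero)⟩

open Turing in
open PartrecToTM2 (K' trNat) in
/-- recursive inseparability for one list of premises -/
theorem inseparable : ∃ P : List (Term × Term), ¬ ∃ f : List ℕ → Bool, Computable f ∧ ∀ t : Term,
    ((∀ (L : Type) [LieRing L], (qid P t).TrueIn L) → f t.code = true) ∧
    ((∃ (L : Type) (_ : LieRing L) (_ : Finite L), (∀ x : L, x + x = 0) ∧ ¬ (qid P t).TrueIn L) →
      f t.code = false) := by
  obtain ⟨Q, finQ, M, q0, acc, hacc, hA, hR⟩ := exists_mach diag diag_partrec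
  have finK : Finite K' := by
    refine Finite.of_injective (fun k : K' => match k with
      | .main => (0 : Fin 4)
      | .rev => 1
      | .aux => 2
      | .stack => 3) ?_
    intro a b h
    cases a <;> cases b <;> simp_all
  obtain ⟨N, ⟨eq⟩⟩ := Finite.exists_equiv_fin (Gen K' (Option PartrecToTM2.Γ') Q)
  let e : Gen K' (Option PartrecToTM2.Γ') Q → ℕ := fun x => (eq x : ℕ)
  have he : Function.Injective e := fun a b h => eq.injective (Fin.ext h)
  let ks : List K' := [.rev, .aux, .stack, .main]
  have hks : ks.Nodup := by decide
  have hall : ∀ k, k ∈ ks := by intro k; cases k <;> simp [ks]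
  let P : List (Term × Term) := (finite_prem M acc e).toFinset.toList
  have hP : ∀ p, p ∈ P ↔ IsPrem M acc e p := by
    intro p
    simp [P]
  refine ⟨P, ?_⟩
  rintro ⟨f, hf, hfv⟩
  let κ : PartrecToTM2.Γ' → ℕ := fun a => e (.inl (some .main, .inl (some a)))
  let pre : List ℕ := [3, e (.inl (some .rev, .inl none)) + 4,
    3, e (.inl (some .aux, .inl none)) + 4, 3, e (.inl (some .stack, .inl none)) + 4,
    3, e (.inl (some .main, .inl none)) + 4, 3, κ .cons + 4]
  have chain_code : ∀ (l : List (Option K' × Let (Option PartrecToTM2.Γ') Q)) (t : Term),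
      (chain (l.map fun x => .var (e (.inl x))) t).code =
        l.flatMap (fun x => [3, e (.inl x) + 4]) ++ t.code := by
    intro l t
    induction l with
    | nil => rfl
    | cons x l ih =>
      have : (chain ((x :: l).map fun x => .var (e (.inl x))) t : Term) =
        .br (.var (e (.inl x))) (chain (l.map fun x => .var (e (.inl x))) t) := rfl
      rw [this, Term.code, ih]
      simp [Term.code]
  have hcode : ∀ n, (cfgTerm ks e q0 (start n)).code =
        pre ++ ((((trNat n).map κ).reverse.flatMap fun i => [3, i + 4]) ++
        [e (.inr q0) + 4]) := by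
    intro n
    rw [cfgTerm, chain_code]
    have : (word ks (start n) : List (Option K' × Let (Option PartrecToTM2.Γ') Q)) =
        (some .rev, .inl none) :: (some .aux, .inl none) :: (some .stack, .inl none) ::
        (some .main, .inl none) :: (some .main, .inl (some .cons)) ::
        ((trNat n).map fun a => (some K'.main, .inl (some a))).reverse := by
      simp [word, ks, start, List.map_reverse]
    rw [this]
    simp [pre, κ, List.flatMap_cons, Term.code, List.flatMap_map, ← List.map_reverse]
  have hcomp : Computable fun n => (cfgTerm ks e q0 (start n)).code := by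
    have hfm : Computable (fun l : List ℕ => l.flatMap (fun x => [3, x + 4])) := by
      apply Primrec.to_comp
      refine Primrec.list_flatMap Primrec.id ?_
      have : Primrec (fun x : ℕ => [3, x + 4]) := by
        refine Primrec.list_cons.comp (Primrec.const _) ?_
        refine Primrec.list_cons.comp ?_ (Primrec.const _)
        exact Primrec.nat_add.comp Primrec.id (Primrec.const 4)
      exact this.comp Primrec.snd
    have hd : Computable fun n => (((trNat n).map κ).reverse.flatMap fun i => [3, i + 4]) :=
      hfm.comp (Computable.list_reverse.comp (Pool.Agent.Helper147.Univ.digits_computable κ))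
    simp only [hcode]
    refine Computable.list_append.comp (Computable.const _) ?_
    exact Computable.list_append.comp hd (Computable.const _)
  refine insep (fun n => f (cfgTerm ks e q0 (start n)).code) (hf.comp hcomp) ?_ ?_
  · intro n hn
    refine (hfv _).1 ?_
    intro L _ v hv
    obtain ⟨q, S, o, z, h1, h2, h3⟩ := hA n hn
    exact accept M acc e v (fun p hp => hv p ((hP p).2 hp)) ks hks hall _ _ h1 o z h2 h3
  · intro n hn
    refine (hfv _).2 ?_
    obtain ⟨q, S, h1, h2, h3⟩ := hR n hn
    obtain ⟨L, i1, i2, v, h6, h4, h5⟩ :=
      reject_two M acc hacc e he ks hks hall q0 (start n) _ h1 h2 h3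
    exact ⟨L, i1, i2, h6, fun h => h5 (h v fun p hp => h4 p ((hP p).1 hp))⟩

theorem code_qid (P : List (Term × Term)) (t : Term) : (qid P t).code =
    P.length :: ((P.flatMap fun p => p.1.code ++ p.2.code) ++ (t.code ++ [0])) := rfl

/-- **Recursive inseparability for one finite presentation of Lie rings.** (1) There is a finite
list `P` of equations such that no algorithm separates the terms `t` for which `P → t = 0` holds in
all Lie rings (that is, `t = 0` in the finitely presented Lie ring with the relations `P`) from the
terms `t` for which `P → t = 0` fails in some finite Lie ring in which `2 x = 0` for all `x`.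
(2) For every class `𝒦` of Lie rings which contains all finite Lie rings with `2 x = 0`, no
algorithm decides for every quasi-identity whether it holds in all members of `𝒦`. (3) In
particular the quasi-identities of the finite Lie rings are undecidable. -/
theorem result :
    (∃ P : List (Term × Term), ¬ ∃ f : List ℕ → Bool, Computable f ∧ ∀ t : Term,
      ((∀ (L : Type) [LieRing L], (qid P t).TrueIn L) → f t.code = true) ∧
      ((∃ (L : Type) (_ : LieRing L) (_ : Finite L), (∀ x : L, x + x = 0) ∧
        ¬ (qid P t).TrueIn L) → f t.code = false)) ∧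
    (∀ 𝒦 : (L : Type) → LieRing L → Prop,
      (∀ (L : Type) (inst : LieRing L), Finite L → (∀ x : L, x + x = 0) → 𝒦 L inst) →
      ¬ ∃ f : List ℕ → Bool, Computable f ∧ ∀ q : QuasiId,
        (f q.code = true ↔ ∀ (L : Type) (inst : LieRing L), 𝒦 L inst → q.TrueIn L)) ∧
    ¬ EqualityProblemDecidable := by
  have key : ∀ 𝒦 : (L : Type) → LieRing L → Prop,
      (∀ (L : Type) (inst : LieRing L), Finite L → (∀ x : L, x + x = 0) → 𝒦 L inst) →
      ¬ ∃ f : List ℕ → Bool, Computable f ∧ ∀ q : QuasiId,
        (f q.code = true ↔ ∀ (L : Type) (inst : LieRing L), 𝒦 L inst → q.TrueIn L) := by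
    rintro 𝒦 h𝒦 ⟨f, hf, hfq⟩
    obtain ⟨P, hP⟩ := inseparable
    apply hP
    refine ⟨fun c => f (P.length :: ((P.flatMap fun p => p.1.code ++ p.2.code) ++ (c ++ [0]))),
      ?_, fun t => ⟨fun h => ?_, ?_⟩⟩
    · refine hf.comp (Computable.list_cons.comp (Computable.const _) ?_)
      refine Computable.list_append.comp (Computable.const _) ?_
      exact Computable.list_append.comp Computable.id (Computable.const _)
    · have h1 := (hfq (qid P t)).2 fun L inst _ => h L
      rw [code_qid] at h1
      exact h1
    · rintro ⟨L, i1, i2, h2, h3⟩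
      rw [Bool.eq_false_iff]
      intro h4
      have h5 := (hfq (qid P t)).1 (by rw [code_qid]; exact h4)
      exact h3 (h5 L i1 (h𝒦 L i1 i2 h2))
  refine ⟨inseparable, key, ?_⟩
  rintro ⟨f, hf, hfq⟩
  refine key (fun L _ => Finite L) (fun L _ h _ => h) ⟨f, hf, fun q => (hfq q).trans ?_⟩
  constructor
  · intro h L inst hL
    exact @h L inst hL
  · intro h L inst hL
    exact h L inst hL

end Pool.Agent.Results.MP_b13462_lc.Inseparable
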